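import Pool.Agent.W602.GT.KDefs

/-!
The Kodaira dimension as a value, and the variation of a fibration.
-/

set_option autoImplicit false
set_option maxHeartbeats 400000

open FF

namespace Pool.Agent.Y221.VC

open Pool.Agent.W602.GT

open Classical in
/-- The Kodaira dimension of the smooth projective varieties with function field `K` over `k`, of
transcendence degree `n`: the largest `a ≤ n` such that, for some `N > 0`, there are regular
`N`-canonical forms `ω 0, …, ω a` with algebraically independent ratios `ω i / ω 0`, and `⊥ = -∞` if
there are no nonzero regular `N`-canonical forms, `N > 0`. -/
noncomputable def kappa (k K : Type) [Field k] [Field K] [Algebra k K] (n : ℕ) : WithBot ℕ :=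
  ((Finset.range (n + 1)).filter fun a => KodGe k K n (fun _ => False) a).max

/-- The variation. `Λ` is the algebraic closure of the function field of the base, `E` the function
field of the geometric generic fibre: the smallest transcendence degree over `k` of an algebraically
closed subfield `N` of `Λ` such that there is a finitely generated extension `W` of `N` in `E` with
`E = Frac (W ⊗ Λ)`, the tensor product over `N`: `W` and `Λ` are linearly disjoint over `N` and
generate `E`. -/
noncomputable def variation (k Λ E : Type) [Field k] [Field Λ] [Field E] [Algebra k Λ]
    [Algebra Λ E] : ℕ :=
  sInf {v : ℕ | ∃ N : IntermediateField k Λ, IsAlgClosed N ∧ Algebra.trdeg k N = v ∧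
    ∃ W : IntermediateField N E, W.FG ∧ W.LinearDisjoint Λ ∧
      IntermediateField.adjoin Λ (W : Set E) = ⊤}

end Pool.Agent.Y221.VC
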