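import Pool.Agent.Y221.VC.Stm
import Pool.Agent.Y221.VC.Defs
import Pool.Agent.TH466.QG.Equiv

/-!
Kodaira dimensions and variation: elementary properties.
-/

set_option autoImplicit false
set_option maxHeartbeats 400000
set_option linter.overlappingInstances false
set_option linter.unusedSectionVars false

open FF IntermediateField

namespace Pool.Agent.Y221.VC

open Pool.Agent.W602.GT Pool.Agent.TH466.QG

section
variable {k K : Type} [Field k] [Field K] [Algebra k K] {n : ℕ}

theorem derReg_log {P : Place k K} {D : Derivation k K K} (h : DerLog P D) : DerReg P D := by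
  intro f hf
  by_cases h0 : f = 0
  · rw [h0, map_zero]
    exact P.reg_zero
  · have h3 := P.reg_mul (h f) hf
    rwa [div_mul_cancel₀ _ h0] at h3

theorem logSec_of {N : ℕ} {ω : (Fin n → Derivation k K K) → K} (h1 : IsPluri N ω)
    (h2 : ∀ P : Place k K, Divisorial n P → RegAt P ω) : LogSec k K n N (fun _ => False) ω :=
  ⟨h1, fun P hP D hD => h2 P hP D fun i => derReg_log (hD i), fun P hP _ => h2 P hP⟩

theorem kod_mono {a b : ℕ} (hab : a ≤ b) (h : KodGe k K n (fun _ => False) b) :
    KodGe k K n (fun _ => False) a := by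
  obtain ⟨N, hN, ω, hω, D, hD0, hD⟩ := h
  refine ⟨N, hN, fun i => ω (Fin.castLE (Nat.succ_le_succ hab) i), fun i => hω _, D, ?_, ?_⟩
  · exact hD0
  · have h1 := hD.comp (Fin.castLE hab) (Fin.castLE_injective hab)
    exact h1

theorem kod_le {a : ℕ} (htr : Algebra.trdeg k K = n) (h : KodGe k K n (fun _ => False) a) :
    a ≤ n := by
  obtain ⟨N, hN, ω, hω, D, hD0, hD⟩ := h
  have h1 := hD.lift_cardinalMk_le_trdeg
  rw [Cardinal.mk_fin, htr] at h1
  simpa using h1

theorem kod_of_gen (h : GeneralType k K n) : KodGe k K n (fun _ => False) n := by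
  obtain ⟨-, N, hN, ω, h1, h2, D, hD, hD'⟩ := h
  exact ⟨N, hN, ω, fun j => logSec_of (h1 j) fun P hP => h2 P hP j, D, hD, hD'⟩

theorem le_kappa {a : ℕ} (htr : Algebra.trdeg k K = n) (h : KodGe k K n (fun _ => False) a) :
    (a : WithBot ℕ) ≤ kappa k K n := by
  classical
  apply Finset.le_max
  rw [Finset.mem_filter, Finset.mem_range]
  exact ⟨Nat.lt_succ_of_le (kod_le htr h), h⟩

theorem kappa_le : kappa k K n ≤ (n : WithBot ℕ) := by
  classical
  apply Finset.max_le
  intro a ha
  rw [Finset.mem_filter, Finset.mem_range] at ha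
  exact WithBot.coe_le_coe.2 (Nat.lt_succ_iff.1 ha.1)

theorem kod_of_kappa (h : kappa k K n ≠ ⊥) : KodGe k K n (fun _ => False) 0 := by
  classical
  obtain ⟨a, ha⟩ := WithBot.ne_bot_iff_exists.1 h
  have h1 := Finset.mem_of_max ha.symm
  rw [Finset.mem_filter] at h1
  exact kod_mono (Nat.zero_le a) h1.2

theorem kappa_eq {a : ℕ} (htr : Algebra.trdeg k K = n) :
    (a : WithBot ℕ) ≤ kappa k K n ↔ KodGe k K n (fun _ => False) a := by
  classical
  refine ⟨fun h => ?_, le_kappa htr⟩
  have h0 : kappa k K n ≠ ⊥ := by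
    intro h1
    rw [h1] at h
    exact absurd h (by simp)
  obtain ⟨b, hb⟩ := WithBot.ne_bot_iff_exists.1 h0
  have h1 := Finset.mem_of_max hb.symm
  rw [Finset.mem_filter] at h1
  rw [← hb] at h
  exact kod_mono (WithBot.coe_le_coe.1 h) h1.2

end

section
variable {k F F' : Type} [Field k] [Field F] [Field F'] [Algebra k F] [Algebra k F']

theorem kod_of_equiv (e : F ≃ₐ[k] F') {w a : ℕ} (h : KodGe k F w (fun _ => False) a) :
    KodGe k F' w (fun _ => False) a := by
  obtain ⟨N, hN, ω, hsec, D, hD0, hD⟩ := h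
  have hω : ∀ j, IsPluri N (ω j) := fun j => (hsec j).1
  have hreg : ∀ P : Place k F, Divisorial w P → ∀ j, RegAt P (ω j) :=
    fun P hP j => (hsec j).2.2 P hP fun h => h
  refine ⟨N, hN, fun j D' => e (ω j (fun i => pushD e.symm (D' i))), fun j =>
    logSec_of (fun A D' => ?_) (fun P hP D' hD' => ?_), fun i => pushD e (D i), ?_, ?_⟩
  · have h1 : (fun i => pushD e.symm (∑ l, A i l • D' l)) =
        fun i => ∑ l, (A.map e.symm) i l • pushD e.symm (D' l) := by
      funext i
      ext x
      rw [pushD_apply, Pool.Agent.W357.PG.sum_apply', Pool.Agent.W357.PG.sum_apply', map_sum]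
      refine Finset.sum_congr rfl fun l _ => ?_
      rw [Derivation.coe_smul, Pi.smul_apply, smul_eq_mul, map_mul, Matrix.map_apply,
        Derivation.coe_smul, Pi.smul_apply, smul_eq_mul, pushD_apply]
    change e (ω j (fun i => pushD e.symm (∑ l, A i l • D' l))) = _
    rw [h1, hω j, map_mul, map_pow]
    congr 2
    have h2 := RingHom.map_det (e : F →+* F') (A.map e.symm)
    change e _ = _ at h2
    rw [h2]
    congr 1
    ext i l
    simp [RingHom.mapMatrix_apply]
  · change P.Reg (e _)
    rw [← reg_pullPl e P]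
    refine hreg (pullPl e P) ?_ j _ fun i f hf => ?_
    · obtain ⟨u, hu⟩ := hP
      refine ⟨fun i => e.symm (u i), fun G hG => ?_⟩
      have h1 : MvPolynomial.aeval (fun i => e.symm (u i)) G = e.symm (MvPolynomial.aeval u G) := by
        rw [← AlgEquiv.coe_toAlgHom, ← MvPolynomial.comp_aeval_apply]
      rw [h1]
      refine ⟨by simpa using (hu G hG).1, ?_⟩
      change P.ord (e (e.symm _)) = 0
      rw [AlgEquiv.apply_symm_apply]
      exact (hu G hG).2
    · rw [reg_pullPl] at hf ⊢
      rw [pushD_apply, AlgEquiv.symm_symm, AlgEquiv.apply_symm_apply]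
      exact hD' i _ hf
  · simp only [pushD_symm]
    simpa using hD0
  · simp only [pushD_symm]
    have h1 := hD.map' (f := (e : F →ₐ[k] F')) e.injective
    convert h1 using 1
    funext i
    simp

end

/-- The variation is at most the dimension of the base. -/
theorem var_le {k Λ E : Type} [Field k] [Field Λ] [Field E] [Algebra k Λ] [Algebra Λ E]
    [IsAlgClosed Λ] (hess : Algebra.EssFiniteType Λ E) {d : ℕ} (hd : Algebra.trdeg k Λ = d) :
    variation k Λ E ≤ d := by
  apply Nat.sInf_le
  have hsurj : ∀ x : Λ, ∃ y : (⊤ : IntermediateField k Λ), algebraMap _ Λ y = x :=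
    fun x => ⟨⟨x, trivial⟩, rfl⟩
  refine ⟨⊤, IsAlgClosed.of_ringEquiv Λ _ (IntermediateField.topEquiv (F := k) (E := Λ)).symm,
    ?_, ⊤, ?_, ?_, ?_⟩
  · rw [← hd]
    exact (IntermediateField.topEquiv (F := k) (E := Λ)).trdeg_eq
  · rw [← IntermediateField.fg_top_iff] at hess
    obtain ⟨T, hT⟩ := hess
    refine ⟨T, ?_⟩
    rw [eq_top_iff]
    rintro z -
    have hz : z ∈ IntermediateField.adjoin Λ (T : Set E) := by
      rw [hT]
      exact IntermediateField.mem_top
    induction hz using IntermediateField.adjoin_induction with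
    | mem z hz => exact IntermediateField.subset_adjoin _ _ hz
    | algebraMap c =>
      exact IntermediateField.algebraMap_mem _ (⟨c, trivial⟩ : (⊤ : IntermediateField k Λ))
    | add x y _ _ hx hy => exact add_mem hx hy
    | inv x _ hx => exact inv_mem hx
    | mul x y _ _ hx hy => exact mul_mem hx hy
  · rw [IntermediateField.linearDisjoint_iff]
    have h1 : (IsScalarTower.toAlgHom (⊤ : IntermediateField k Λ) Λ E).range = ⊥ := by
      rw [eq_bot_iff]
      rintro _ ⟨x, rfl⟩
      exact Algebra.mem_bot.2 ⟨⟨x, trivial⟩, rfl⟩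
    rw [h1]
    exact Subalgebra.LinearDisjoint.bot_right _
  · rw [eq_top_iff]
    rintro z -
    exact IntermediateField.subset_adjoin _ _ trivial

end Pool.Agent.Y221.VC
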