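import Pool.Agent.Y221.VC.Fib
import Pool.Agent.Y221.VC.Kap

/-!
Subadditivity of the Kodaira dimension, with variation, for the fibrations whose total space is
dominated by a component of a system of high powers.
-/

set_option autoImplicit false
set_option maxHeartbeats 400000
set_option linter.overlappingInstances false
set_option linter.unusedSectionVars false

open FF IntermediateField

namespace Pool.Agent.Y221.VC

open Pool.Agent.W602.GT Pool.Agent.TH466.QG

section
variable {k L M Λ E : Type} [Field k] [Field L] [Field M] [Field Λ] [Field E] [Algebra k L]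
  [Algebra k M] [Algebra M L] [IsScalarTower k M L] [Algebra M Λ] [hΛ : Algebra.IsAlgebraic M Λ]
  [Algebra Λ E] [Algebra L E] [Algebra M E] [IsScalarTower M Λ E] [IsScalarTower M L E]

variable (k M) in
include k M in
theorem ess_fib [hess : Algebra.EssFiniteType k L]
    (hE : IntermediateField.adjoin Λ (Set.range (algebraMap L E)) = ⊤) :
    Algebra.EssFiniteType Λ E := by
  rw [← IntermediateField.fg_top_iff] at hess ⊢
  obtain ⟨T, hT⟩ := hess
  classical
  refine ⟨T.image (algebraMap L E), ?_⟩
  rw [eq_top_iff]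
  have h1 : ∀ x : L, algebraMap L E x ∈
      IntermediateField.adjoin Λ (↑(T.image (algebraMap L E)) : Set E) := by
    intro x
    have hx : x ∈ IntermediateField.adjoin k (T : Set L) := by
      rw [hT]
      exact IntermediateField.mem_top
    induction hx using IntermediateField.adjoin_induction with
    | mem z hz =>
      apply IntermediateField.subset_adjoin
      rw [Finset.coe_image]
      exact ⟨z, hz, rfl⟩
    | algebraMap c =>
      have h2 : algebraMap L E (algebraMap k L c) =
          algebraMap Λ E (algebraMap M Λ (algebraMap k M c)) := by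
        rw [IsScalarTower.algebraMap_apply k M L, ← IsScalarTower.algebraMap_apply M L E,
          IsScalarTower.algebraMap_apply M Λ E]
      rw [h2]
      exact IntermediateField.algebraMap_mem _ _
    | add x y _ _ hx hy => rw [map_add]; exact add_mem hx hy
    | inv x _ hx => rw [map_inv₀]; exact inv_mem hx
    | mul x y _ _ hx hy => rw [map_mul]; exact mul_mem hx hy
  rw [← hE, IntermediateField.adjoin_le_iff]
  rintro _ ⟨x, rfl⟩
  exact h1 x

variable (M) in
include M in
theorem alg_fib (hE : IntermediateField.adjoin Λ (Set.range (algebraMap L E)) = ⊤) :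
    Algebra.IsAlgebraic L E := by
  have hΛL : ∀ x : Λ, IsAlgebraic L (algebraMap Λ E x) := by
    intro x
    obtain ⟨p, hp0, hp⟩ := hΛ.isAlgebraic x
    refine ⟨p.map (algebraMap M L), Polynomial.map_ne_zero hp0, ?_⟩
    have h2 := congrArg (algebraMap Λ E) hp
    rw [map_zero] at h2
    rw [← h2, Polynomial.aeval_def, Polynomial.aeval_def, Polynomial.eval₂_map,
      Polynomial.hom_eval₂, ← IsScalarTower.algebraMap_eq M L E, ← IsScalarTower.algebraMap_eq M Λ E]
  refine ⟨fun z => ?_⟩
  have hz : z ∈ IntermediateField.adjoin Λ (Set.range (algebraMap L E)) := by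
    rw [hE]
    exact IntermediateField.mem_top
  induction hz using IntermediateField.adjoin_induction with
  | mem z hz =>
    obtain ⟨x, rfl⟩ := hz
    exact isAlgebraic_algebraMap x
  | algebraMap c => exact hΛL c
  | add x y _ _ hx hy => exact hx.add hy
  | inv x _ hx => exact hx.inv
  | mul x y _ _ hx hy => exact hx.mul hy

theorem dim_fib (hE : IntermediateField.adjoin Λ (Set.range (algebraMap L E)) = ⊤) {w d f : ℕ}
    (hL : Algebra.trdeg k L = w) (hM : Algebra.trdeg k M = d) (hf : Algebra.trdeg Λ E = f) :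
    d + f = w := by
  have hEL := alg_fib M hE
  have h1 : Algebra.trdeg L E = 0 := by
    rw [trdeg_eq_zero_iff]
    infer_instance
  have h2 : Algebra.trdeg M Λ = 0 := by
    rw [trdeg_eq_zero_iff]
    infer_instance
  have h3 := trdeg_add_eq M L (A := E)
  have h4 := trdeg_add_eq M Λ (A := E)
  rw [h1, add_zero] at h3
  rw [h2, zero_add, hf] at h4
  have h5 := trdeg_add_eq k M (A := L)
  rw [h3, ← h4, hM, hL] at h5
  exact_mod_cast h5

end

variable {k : Type} [Field k] [CharZero k] [IsAlgClosed k] {n : ℕ} {ι : Type}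
  {F : ι → MvPolynomial (Fin (n + 1)) k} {s N w r : ℕ}

theorem general_or_neg (rul : StmRul) (hF : HighPowers s N F) (hN1 : 1 ≤ N) (hw : 1 ≤ w)
    (hN : r * (w * ((s + 4) * ((s - 1) * (s - 2) / 2))) ≤ N) {K L M Λ E : Type} [Field K]
    [Field L] [Field M] [Field Λ] [Field E] [Algebra k K] [Algebra k L] [Algebra k M]
    [Algebra L K] [Algebra M L] [IsScalarTower k L K] [IsScalarTower k M L]
    [FiniteDimensional L K] [Algebra M Λ] [hΛ : Algebra.IsAlgebraic M Λ] [IsAlgClosed Λ]
    [Algebra Λ E] [Algebra L E] [Algebra M E] [IsScalarTower M Λ E] [IsScalarTower M L E]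
    {y : Fin (n + 1) → K} (hy : SubVar F K w y) (hcomp : IsComponent F y)
    (hr : Module.finrank L K ≤ r)
    (hE : IntermediateField.adjoin Λ (Set.range (algebraMap L E)) = ⊤) {d f : ℕ}
    (hM : Algebra.trdeg k M = d) (hf : Algebra.trdeg Λ E = f)
    (hκ : KodGe k M d (fun _ => False) 0) :
    GeneralType k L w ∨ ¬ KodGe Λ E f (fun _ => False) 0 := by
  rcases circ_or_ruled hF hN1 hy hcomp with h | h
  · exact Or.inl (general_corr (K := K) (K' := K) hw h hr hN)
  · right
    obtain ⟨C, σ, hσ, htop⟩ := h
    have hKe : Algebra.EssFiniteType k K := SubVar.ess hy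
    let g : M →ₐ[k] K := (IsScalarTower.toAlgHom k L K).comp (IsScalarTower.toAlgHom k M L)
    let e : M ≃ₐ[k] g.fieldRange := AlgEquiv.ofInjectiveField g
    have h1 := rul k K w hy.dim C σ hσ htop g.fieldRange d
      (by rw [← hM]; exact e.symm.trdeg_eq) (kod_of_equiv e hκ)
    exact fib_neg hE hf C σ hσ htop fun z => h1 _ ⟨z, rfl⟩

/-- Viehweg's inequality. -/
theorem main_ineq (rul : StmRul) (hF : HighPowers s N F) (hN1 : 1 ≤ N) (hw : 1 ≤ w)
    (hN : r * (w * ((s + 4) * ((s - 1) * (s - 2) / 2))) ≤ N) {K L M Λ E : Type} [Field K]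
    [Field L] [Field M] [Field Λ] [Field E] [Algebra k K] [Algebra k L] [Algebra k M]
    [Algebra k Λ] [Algebra L K] [Algebra M L] [IsScalarTower k L K] [IsScalarTower k M L]
    [FiniteDimensional L K] [Algebra M Λ] [IsScalarTower k M Λ]
    [hΛ : Algebra.IsAlgebraic M Λ] [IsAlgClosed Λ]
    [Algebra Λ E] [Algebra L E] [Algebra M E] [IsScalarTower M Λ E] [IsScalarTower M L E]
    {y : Fin (n + 1) → K} (hy : SubVar F K w y) (hcomp : IsComponent F y)
    (hr : Module.finrank L K ≤ r)
    (hE : IntermediateField.adjoin Λ (Set.range (algebraMap L E)) = ⊤) {d f : ℕ}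
    (hM : Algebra.trdeg k M = d) (hf : Algebra.trdeg Λ E = f)
    (hκ : kappa k M d ≠ ⊥) :
    kappa Λ E f + max (kappa k M d) (variation k Λ E : WithBot ℕ) ≤ kappa k L w ∧
      (kappa Λ E f ≠ ⊥ → GeneralType k L w) := by
  have hKe : Algebra.EssFiniteType k K := SubVar.ess hy
  have hLe : Algebra.EssFiniteType k L := ess_below (K := K)
  have hL : Algebra.trdeg k L = w := by
    rw [← hy.dim, ← trdeg_add_eq k L (A := K)]
    have h1 : Algebra.trdeg L K = 0 := by
      rw [trdeg_eq_zero_iff]
      infer_instance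
    rw [h1, add_zero]
  have hdf := dim_fib (k := k) (M := M) hE hL hM hf
  have hess : Algebra.EssFiniteType Λ E := ess_fib k M hE
  have hΛd : Algebra.trdeg k Λ = d := by
    rw [← hM, ← trdeg_add_eq k M (A := Λ)]
    have h1 : Algebra.trdeg M Λ = 0 := by
      rw [trdeg_eq_zero_iff]
      infer_instance
    rw [h1, add_zero]
  rcases general_or_neg rul hF hN1 hw hN hy hcomp hr hE hM hf (kod_of_kappa hκ) with h | h
  · refine ⟨?_, fun _ => h⟩
    have h1 : (w : WithBot ℕ) ≤ kappa k L w := le_kappa hL (kod_of_gen h)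
    refine le_trans ?_ h1
    have h2 : max (kappa k M d) (variation k Λ E : WithBot ℕ) ≤ (d : WithBot ℕ) :=
      max_le kappa_le (by exact_mod_cast var_le hess hΛd)
    have h3 : kappa Λ E f ≤ (f : WithBot ℕ) := kappa_le
    calc kappa Λ E f + max (kappa k M d) (variation k Λ E : WithBot ℕ)
        ≤ (f : WithBot ℕ) + (d : WithBot ℕ) := add_le_add h3 h2
      _ = (w : WithBot ℕ) := by
        rw [← hdf]
        push_cast
        exact add_comm _ _
  · have h1 : kappa Λ E f = ⊥ := by
      by_contra h2
      exact h (kod_of_kappa h2)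
    refine ⟨?_, fun h2 => absurd h1 h2⟩
    rw [h1, WithBot.bot_add]
    exact bot_le

end Pool.Agent.Y221.VC
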