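import Pool.Agent.Y221.VC.Cst
import Pool.Agent.Y221.VC.Asm

/-!
Subfields of nonnegative Kodaira dimension of the function fields of ruled varieties.
-/

set_option autoImplicit false
set_option maxHeartbeats 400000
set_option linter.overlappingInstances false
set_option linter.unusedSectionVars false

open FF IntermediateField

namespace Pool.Agent.Y221.VC

open Pool.Agent.W602.GT Pool.Agent.TH466.QG Pool.Agent.TH466.QT
open Pool.Agent.W619.PQ
open Pool.Agent.W619.Y
open Pool.Agent.W603.LV (Ge)

variable {k L : Type} [Field k] [CharZero k] [Field L] [Algebra k L]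

/-- The tensor which belongs to a pluricanonical form of a subfield. -/
theorem tens_of_form {n d m : ℕ} (hn : Algebra.trdeg k L = n) (M : IntermediateField k L)
    [Algebra.EssFiniteType k M] (hM : Algebra.trdeg k M = d)
    (η : (Fin d → Derivation k M M) → M) (hη : IsPluriForm k M d m η)
    (hreg : ∀ u : Place k M, IsDivisorial u d → RegularAt u d η) (D0 : Fin d → Derivation k M M)
    (h0 : η D0 ≠ 0) : ∃ (a : M) (y : Fin d → M), a ≠ 0 ∧ IsTranscendenceBasis k y ∧
      TensReg k L n m d (a : L) fun i => (y i : L) := by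
  classical
  obtain ⟨B, hB⟩ := exists_isTranscendenceBasis k M
  have hcard := hB.cardinalMk_eq_trdeg
  rw [hM] at hcard
  obtain ⟨φ⟩ : Nonempty (Fin d ≃ B) := by
    rw [← Cardinal.eq, Cardinal.mk_fin]
    exact hcard.symm
  let y : Fin d → M := fun i => (φ i : M)
  have hy : IsTranscendenceBasis k y := hB.comp_equiv φ
  choose E hE using fun j => exists_dual (k := k) y hy j
  have hE' : ∀ i j, E i (y j) = if i = j then 1 else 0 := by
    intro i j
    rw [hE i j]
    by_cases h : i = j
    · subst h; simp
    · rw [if_neg h, if_neg (Ne.symm h)]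
  have ha : η E ≠ 0 := by
    intro h
    apply h0
    rw [pluri_frame hη y hy E hE' D0, h, mul_zero]
  refine ⟨η E, y, ha, hy, ?_⟩
  intro w hw X hX
  obtain ⟨Z, z, hz, hZ, hge⟩ := pYLOC k L M d n m hM hn (fun y hy => fin_over y hy) η hη hreg y E
    hy hE' w hw
  have h2 : ∀ l : Fin m, (Matrix.of fun j i => X l j (y i : L)).det =
      Z.det * (Matrix.of fun j c => X l j (z c)).det := by
    intro l
    have h3 : (Matrix.of fun j i => X l j (y i : L)) =
        (Matrix.of fun j c => X l j (z c)) * Z.transpose := by
      ext j i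
      rw [Matrix.mul_apply, Matrix.of_apply, hZ]
      exact Finset.sum_congr rfl fun c _ => by
        rw [Matrix.of_apply, Matrix.transpose_apply, mul_comm]
    rw [h3, Matrix.det_mul, Matrix.det_transpose, mul_comm]
  simp only [h2]
  rw [Finset.prod_mul_distrib, Finset.prod_const, Finset.card_univ, Fintype.card_fin, ← mul_assoc]
  have h3 : Ge w 0 (∏ l : Fin m, (Matrix.of fun j c => X l j (z c)).det) := by
    have h4 := Pool.Agent.W619.TW.ge_prod (v := w) (a := 0)
      (f := fun l : Fin m => (Matrix.of fun j c => X l j (z c)).det)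
      (fun l => ge_det w _ fun j c => hX l j (z c) (hz c))
    simpa using h4
  have h5 := hge.mul h3
  rw [add_zero] at h5
  exact h5

theorem rul : StmRul := by
  intro k _ _ _ K _ _ _ w htr C σ hσ htop M d hM hκ z hz
  obtain ⟨m, hm, ω, hω, D0, hD0, -⟩ := hκ
  have hess : Algebra.EssFiniteType k M := Pool.Agent.Y221.CF.ess_inter M
  obtain ⟨a, y, ha, hy, hreg⟩ := tens_of_form htr M hM (ω 0) (hω 0).1
    (fun u hu => (hω 0).2.2 u hu fun h => h) D0 hD0
  have hyK : AlgebraicIndependent k (fun i => (y i : K)) :=
    hy.1.map' (f := M.val) M.val.toRingHom.injective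
  have ha' : (a : K) ≠ 0 := fun h => ha (Subtype.ext h)
  have h1 : ∀ c, IsAlgebraic C (y c : K) := fun c =>
    tens_const htr C hσ htop hm ha' hyK hreg c
  -- `z` is algebraic over the field generated by the `y c`
  have h2 : IsAlgebraic (IntermediateField.adjoin k (Set.range y)) (⟨z, hz⟩ : M) :=
    hy.isAlgebraic_field.isAlgebraic _
  let B : IntermediateField C K := algebraicClosure C K
  have hB : Algebra.IsAlgebraic C B := algebraicClosure.isAlgebraic C K
  have hle : ∀ x ∈ IntermediateField.adjoin k (Set.range y), ((x : M) : K) ∈ B := by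
    intro x hx
    induction hx using IntermediateField.adjoin_induction with
    | mem x hx =>
      obtain ⟨c, rfl⟩ := hx
      exact mem_algebraicClosure_iff.2 (h1 c)
    | algebraMap c =>
      exact B.algebraMap_mem (algebraMap k C c)
    | add x y _ _ hx hy => exact add_mem hx hy
    | inv x _ hx => exact inv_mem hx
    | mul x y _ _ hx hy => exact mul_mem hx hy
  let g : IntermediateField.adjoin k (Set.range y) →+* B :=
    { toFun := fun x => ⟨((x : M) : K), hle x x.2⟩
      map_one' := rfl
      map_zero' := rfl
      map_mul' := fun _ _ => rfl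
      map_add' := fun _ _ => rfl }
  obtain ⟨p, hp0, hp⟩ := h2
  have h3 : IsAlgebraic B z := by
    refine ⟨p.map g, Polynomial.map_ne_zero hp0, ?_⟩
    have h4 := congrArg (algebraMap M K) hp
    rw [map_zero] at h4
    rw [← h4, Polynomial.aeval_def, Polynomial.aeval_def, Polynomial.eval₂_map,
      Polynomial.hom_eval₂]
    rfl
  exact h3.restrictScalars C

end Pool.Agent.Y221.VC
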