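import Pool.Agent.Y221.VC.Pull
import Pool.Agent.Y221.VC.Defs

/-!
The Kodaira dimension of the orbifold base of a fibration.
-/

set_option autoImplicit false
set_option maxHeartbeats 400000

open FF

namespace Pool.Agent.Y221.VC

variable {k L : Type} [Field k] [Field L] [Algebra k L]

/-- `L` is the function field of `X`, `dim X = w`, and the subfield `M` is the function field of the
base `Y` of a fibration `X → Y`, `dim Y = d`. For some `m ≥ 1` there are rational `m`-canonical forms
`a i (dz_1 ∧ … ∧ dz_d) ^ m` on `Y`, `i = 0, …, b`, with algebraically independent ratios `a i / a 0`,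
which are regular as tensor differentials on `X`: along a prime divisor `D` of `Y` such a form may
have a pole of order at most `m (1 - 1 / m_D)`, where `m_D` is the multiplicity of the fibre of `X`
over `D`. -/
def OrbGe (M : IntermediateField k L) (w d b : ℕ) : Prop :=
  ∃ m : ℕ, 1 ≤ m ∧ ∃ (z : Fin d → M) (a : Fin (b + 1) → M), AlgebraicIndependent k z ∧ a 0 ≠ 0 ∧
    (∀ i, TensReg k L w m d (a i : L) fun c => (z c : L)) ∧
    AlgebraicIndependent k fun i : Fin b => a i.succ / a 0

open Classical in
/-- The Kodaira dimension `κ(Y, Δ_f)` of the orbifold base of `f : X → Y` (on a suitable birational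
model of `f`); `⊥` stands for `-∞`. -/
noncomputable def kappaOrb (M : IntermediateField k L) (w d : ℕ) : WithBot ℕ :=
  ((Finset.range (d + 1)).filter fun b => OrbGe M w d b).max

end Pool.Agent.Y221.VC
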