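import Pool.Agent.Y221.VC.Rul
import Pool.Agent.Y221.VC.ODefs

/-!
Subadditivity with the orbifold base.
-/

set_option autoImplicit false
set_option maxHeartbeats 400000
set_option linter.overlappingInstances false
set_option linter.unusedSectionVars false

open FF IntermediateField

namespace Pool.Agent.Y221.VC

open Pool.Agent.W602.GT Pool.Agent.TH466.QG Pool.Agent.TH466.QT
open Pool.Agent.W619.PQ (IsPluriForm IsDivisorial RegularAt ge_det)
open Pool.Agent.W619.Y (pYLOC fin_over pluri_frame)
open Pool.Agent.W603.LV (Ge)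

section
variable {k L : Type} [Field k] [Field L] [Algebra k L] {M : IntermediateField k L} {w d : ℕ}

theorem orb_mono {a b : ℕ} (hab : a ≤ b) (h : OrbGe M w d b) : OrbGe M w d a := by
  obtain ⟨m, hm, z, c, hz, hc0, hreg, hind⟩ := h
  exact ⟨m, hm, z, fun i => c (Fin.castLE (Nat.succ_le_succ hab) i), hz, hc0, fun i => hreg _,
    hind.comp (Fin.castLE hab) (Fin.castLE_injective hab)⟩

theorem orb_le {b : ℕ} (hM : Algebra.trdeg k M = d) (h : OrbGe M w d b) : b ≤ d := by
  obtain ⟨m, hm, z, c, hz, hc0, hreg, hind⟩ := h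
  have h1 := hind.lift_cardinalMk_le_trdeg
  rw [Cardinal.mk_fin, hM] at h1
  simpa using h1

theorem le_kappaOrb {b : ℕ} (hM : Algebra.trdeg k M = d) (h : OrbGe M w d b) :
    (b : WithBot ℕ) ≤ kappaOrb M w d := by
  classical
  apply Finset.le_max
  rw [Finset.mem_filter, Finset.mem_range]
  exact ⟨Nat.lt_succ_of_le (orb_le hM h), h⟩

theorem kappaOrb_le : kappaOrb M w d ≤ (d : WithBot ℕ) := by
  classical
  apply Finset.max_le
  intro a ha
  rw [Finset.mem_filter, Finset.mem_range] at ha
  exact WithBot.coe_le_coe.2 (Nat.lt_succ_iff.1 ha.1)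

theorem orb_of_kappa (h : kappaOrb M w d ≠ ⊥) : OrbGe M w d 0 := by
  classical
  obtain ⟨a, ha⟩ := WithBot.ne_bot_iff_exists.1 h
  have h1 := Finset.mem_of_max ha.symm
  rw [Finset.mem_filter] at h1
  exact orb_mono (Nat.zero_le a) h1.2

end

variable {k : Type} [Field k] [CharZero k]

/-- Pluricanonical forms of the base are regular on the total space. -/
theorem orb_of_kod {L : Type} [Field L] [Algebra k L] [Algebra.EssFiniteType k L]
    {M : IntermediateField k L} {w d b : ℕ} (hL : Algebra.trdeg k L = w)
    (hM : Algebra.trdeg k M = d) (h : KodGe k M d (fun _ => False) b) : OrbGe M w d b := by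
  classical
  have hess : Algebra.EssFiniteType k M := Pool.Agent.Y221.CF.ess_inter M
  obtain ⟨m, hm, ω, hω, D0, hD0, hind⟩ := h
  obtain ⟨B, hB⟩ := exists_isTranscendenceBasis k M
  have hcard := hB.cardinalMk_eq_trdeg
  rw [hM] at hcard
  obtain ⟨φ⟩ : Nonempty (Fin d ≃ B) := by
    rw [← Cardinal.eq, Cardinal.mk_fin]
    exact hcard.symm
  let y : Fin d → M := fun i => (φ i : M)
  have hy : IsTranscendenceBasis k y := hB.comp_equiv φ
  choose E hE using fun j => Pool.Agent.W619.PQ.exists_dual (k := k) y hy j
  have hE' : ∀ i j, E i (y j) = if i = j then 1 else 0 := by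
    intro i j
    rw [hE i j]
    by_cases h : i = j
    · subst h; simp
    · rw [if_neg h, if_neg (Ne.symm h)]
  have hfr : ∀ i, ω i D0 = (Matrix.of fun a b => D0 a (y b)).det ^ m * ω i E := fun i =>
    pluri_frame (hω i).1 y hy E hE' D0
  have hdet : (Matrix.of fun a b => D0 a (y b)).det ^ m ≠ 0 := by
    intro h0
    apply hD0
    rw [hfr, h0, zero_mul]
  have ha0 : ω 0 E ≠ 0 := by
    intro h0
    apply hD0
    rw [hfr, h0, mul_zero]
  refine ⟨m, hm, y, fun i => ω i E, hy.1, ha0, fun i => ?_, ?_⟩
  · intro v hv X hX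
    obtain ⟨Z, z, hz, hZ, hge⟩ := pYLOC k L M d w m hM hL (fun y hy => fin_over y hy) (ω i)
      (hω i).1 (fun u hu => (hω i).2.2 u hu fun h => h) y E hy hE' v hv
    have h2 : ∀ l : Fin m, (Matrix.of fun j i => X l j (y i : L)).det =
        Z.det * (Matrix.of fun j c => X l j (z c)).det := by
      intro l
      have h3 : (Matrix.of fun j i => X l j (y i : L)) =
          (Matrix.of fun j c => X l j (z c)) * Z.transpose := by
        ext j i
        rw [Matrix.mul_apply, Matrix.of_apply, hZ]
        exact Finset.sum_congr rfl fun c _ => by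
          rw [Matrix.of_apply, Matrix.transpose_apply, mul_comm]
      rw [h3, Matrix.det_mul, Matrix.det_transpose, mul_comm]
    simp only [h2]
    rw [Finset.prod_mul_distrib, Finset.prod_const, Finset.card_univ, Fintype.card_fin,
      ← mul_assoc]
    have h3 : Ge v 0 (∏ l : Fin m, (Matrix.of fun j c => X l j (z c)).det) := by
      have h4 := Pool.Agent.W619.TW.ge_prod (v := v) (a := 0)
        (f := fun l : Fin m => (Matrix.of fun j c => X l j (z c)).det)
        (fun l => ge_det v _ fun j c => hX l j (z c) (hz c))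
      simpa using h4
    have h5 := hge.mul h3
    rw [add_zero] at h5
    exact h5
  · convert hind using 1
    funext i
    rw [hfr, hfr, mul_div_mul_left _ _ hdet]

/-- A field is algebraic over `C` if a transcendence basis is. -/
theorem alg_of_basis' {K : Type} [Field K] [Algebra k K] (C M : IntermediateField k K) {d : ℕ}
    (hM : Algebra.trdeg k M = d) {z : Fin d → M} (hz : AlgebraicIndependent k z)
    (h : ∀ c, IsAlgebraic C ((z c : M) : K)) (x : M) : IsAlgebraic C (x : K) := by
  have hb : IsTranscendenceBasis k z := by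
    refine hz.isTranscendenceBasis_of_trdeg_le ?_ ?_
    · rw [hM]
      exact Cardinal.natCast_lt_aleph0
    · rw [hM]
      simp
  have h2 : IsAlgebraic (IntermediateField.adjoin k (Set.range z)) x :=
    hb.isAlgebraic_field.isAlgebraic _
  let B : IntermediateField C K := algebraicClosure C K
  have hB : Algebra.IsAlgebraic C B := algebraicClosure.isAlgebraic C K
  have hle : ∀ x ∈ IntermediateField.adjoin k (Set.range z), ((x : M) : K) ∈ B := by
    intro x hx
    induction hx using IntermediateField.adjoin_induction with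
    | mem x hx =>
      obtain ⟨c, rfl⟩ := hx
      exact mem_algebraicClosure_iff.2 (h c)
    | algebraMap c =>
      exact B.algebraMap_mem (algebraMap k C c)
    | add x y _ _ hx hy => exact add_mem hx hy
    | inv x _ hx => exact inv_mem hx
    | mul x y _ _ hx hy => exact mul_mem hx hy
  let g : IntermediateField.adjoin k (Set.range z) →+* B :=
    { toFun := fun x => ⟨((x : M) : K), hle x x.2⟩
      map_one' := rfl
      map_zero' := rfl
      map_mul' := fun _ _ => rfl
      map_add' := fun _ _ => rfl }
  obtain ⟨p, hp0, hp⟩ := h2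
  have h3 : IsAlgebraic B (x : K) := by
    refine ⟨p.map g, Polynomial.map_ne_zero hp0, ?_⟩
    have h4 := congrArg (algebraMap M K) hp
    rw [map_zero] at h4
    rw [← h4, Polynomial.aeval_def, Polynomial.aeval_def, Polynomial.eval₂_map,
      Polynomial.hom_eval₂]
    rfl
  exact h3.restrictScalars C

variable [IsAlgClosed k] {n : ℕ} {ι : Type}
  {F : ι → MvPolynomial (Fin (n + 1)) k} {s N w r : ℕ}

/-- Campana's orbifold version of Iitaka's inequality. -/
theorem orb_ineq (hF : HighPowers s N F) (hN1 : 1 ≤ N) (hw : 1 ≤ w)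
    (hN : r * (w * ((s + 4) * ((s - 1) * (s - 2) / 2))) ≤ N) {K L Λ E : Type} [Field K]
    [Field L] [Field Λ] [Field E] [Algebra k K] [Algebra k L] [Algebra L K]
    [IsScalarTower k L K] [FiniteDimensional L K] (M : IntermediateField k L) [Algebra M Λ]
    [hΛ : Algebra.IsAlgebraic M Λ] [IsAlgClosed Λ] [Algebra Λ E] [Algebra L E]
    [IsScalarTower M Λ E]
    {y : Fin (n + 1) → K} (hy : SubVar F K w y) (hcomp : IsComponent F y)
    (hr : Module.finrank L K ≤ r)
    (hE : IntermediateField.adjoin Λ (Set.range (algebraMap L E)) = ⊤) {d f : ℕ}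
    (hM : Algebra.trdeg k M = d) (hf : Algebra.trdeg Λ E = f) :
    kappa k M d ≤ kappaOrb M w d ∧ kappa Λ E f + kappaOrb M w d ≤ kappa k L w ∧
      (kappaOrb M w d ≠ ⊥ → kappa Λ E f ≠ ⊥ → GeneralType k L w) := by
  have hKe : Algebra.EssFiniteType k K := SubVar.ess hy
  have hLe : Algebra.EssFiniteType k L := ess_below (K := K)
  have hL : Algebra.trdeg k L = w := by
    rw [← hy.dim, ← trdeg_add_eq k L (A := K)]
    have h1 : Algebra.trdeg L K = 0 := by
      rw [trdeg_eq_zero_iff]
      infer_instance
    rw [h1, add_zero]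
  have hdf := dim_fib (k := k) (M := M) hE hL hM hf
  refine ⟨?_, ?_⟩
  · by_cases h0 : kappa k M d = ⊥
    · rw [h0]
      exact bot_le
    · obtain ⟨b, hb⟩ := WithBot.ne_bot_iff_exists.1 h0
      rw [← hb]
      exact le_kappaOrb hM (orb_of_kod hL hM ((kappa_eq hM).1 (le_of_eq hb)))
  have key : kappaOrb M w d ≠ ⊥ → GeneralType k L w ∨ kappa Λ E f = ⊥ := by
    intro h0
    rcases circ_or_ruled hF hN1 hy hcomp with h | h
    · exact Or.inl (general_corr (K := K) (K' := K) hw h hr hN)
    · right
      obtain ⟨C, σ, hσ, htop⟩ := h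
      obtain ⟨m, hm, z, a, hz, ha0, hreg, -⟩ := orb_of_kappa h0
      have h1 := tens_pull (K := K) hL (hreg 0)
      have hzK : AlgebraicIndependent k fun c => algebraMap L K (z c : L) :=
        hz.map' (f := (IsScalarTower.toAlgHom k L K).comp M.val)
          ((IsScalarTower.toAlgHom k L K).comp M.val).toRingHom.injective
      have ha : algebraMap L K (a 0 : L) ≠ 0 := by
        rw [map_ne_zero]
        exact fun h2 => ha0 (Subtype.ext h2)
      have h2 : ∀ c, IsAlgebraic C (algebraMap L K (z c : L)) := fun c =>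
        tens_const hy.dim C hσ htop hm ha hzK h1 c
      have h3 : ∀ x : M, IsAlgebraic C (algebraMap L K (algebraMap M L x)) := by
        let g : M →ₐ[k] K := (IsScalarTower.toAlgHom k L K).comp M.val
        let e : M ≃ₐ[k] g.fieldRange := AlgEquiv.ofInjectiveField g
        have hz' : AlgebraicIndependent k fun c => e (z c) :=
          hz.map' (f := (e : M →ₐ[k] g.fieldRange)) e.injective
        intro x
        exact alg_of_basis' C g.fieldRange (by rw [← hM]; exact e.symm.trdeg_eq) hz'
          (fun c => h2 c) (e x)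
      by_contra h4
      exact fib_neg hE hf C σ hσ htop h3 (kod_of_kappa h4)
  refine ⟨?_, fun h0 h1 => (key h0).resolve_right h1⟩
  by_cases h0 : kappaOrb M w d = ⊥
  · rw [h0, WithBot.add_bot]
    exact bot_le
  rcases key h0 with h | h
  · have h1 : (w : WithBot ℕ) ≤ kappa k L w := le_kappa hL (kod_of_gen h)
    refine le_trans ?_ h1
    calc kappa Λ E f + kappaOrb M w d ≤ (f : WithBot ℕ) + (d : WithBot ℕ) :=
          add_le_add kappa_le kappaOrb_le
      _ = (w : WithBot ℕ) := by
        rw [← hdf]
        push_cast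
        exact add_comm _ _
  · rw [h, WithBot.bot_add]
    exact bot_le

end Pool.Agent.Y221.VC
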