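import Pool.Agent.Y221.VC.Pull
import Pool.Agent.W602.GT.SConst
import Pool.Agent.Y221.VC.Kap

/-!
Regular tensor differentials on ruled varieties.
-/

set_option autoImplicit false
set_option maxHeartbeats 400000
set_option linter.overlappingInstances false
set_option linter.unusedSectionVars false

open FF IntermediateField

namespace Pool.Agent.Y221.VC

open Pool.Agent.W602.GT Pool.Agent.TH466.QT

variable {k K : Type} [Field k] [CharZero k] [Field K] [Algebra k K]

/-- If the tensor `a (dz_1 ∧ … ∧ dz_d) ^ m` is regular on a variety with function field `C(σ)`, then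
the `z_c` are algebraic over `C`. -/
theorem tens_const {w : ℕ} (htr : Algebra.trdeg k K = w) (C : IntermediateField k K) {σ : K}
    (hσC : Transcendental C σ) (htopC : C⟮σ⟯ = ⊤) {m d : ℕ} (hm : 1 ≤ m) {a : K} (ha : a ≠ 0)
    {z : Fin d → K} (hz : AlgebraicIndependent k z) (h : TensReg k K w m d a z) (c1 : Fin d) :
    IsAlgebraic C (z c1) := by
  classical
  by_contra hz1
  obtain ⟨δ, hσ, hδC, htop⟩ := delta_of C hσC htopC
  have hσ0 : σ ≠ 0 := by
    rintro rfl
    exact hσC isAlgebraic_zero
  -- `σ` is transcendental over the constants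
  have hσt : Transcendental (consts δ) σ := by
    intro halg
    have h1 : Algebra.IsAlgebraic (consts δ) K := by
      have h2 : Algebra.IsAlgebraic (consts δ) (consts δ)⟮σ⟯ :=
        IntermediateField.isAlgebraic_adjoin_simple halg.isIntegral
      constructor
      intro z
      have h3 := h2.isAlgebraic (⟨z, by rw [htop]; exact IntermediateField.mem_top⟩ :
        (consts δ)⟮σ⟯)
      exact h3.algebraMap (A := K)
    have h2 : Algebra.IsAlgebraic (IntermediateField.adjoin k (consts δ : Set K)) K := by
      rw [IntermediateField.adjoin_self]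
      exact h1
    have h3 := der_eq_zero δ _ h2 (fun s hs => hs)
    rw [h3] at hσ
    exact hσ0 hσ.symm
  -- `δ` does not vanish on `z c1`
  have hδz : δ (z c1) ≠ 0 := by
    intro h0
    have hb : IsTranscendenceBasis C (fun _ : Unit => σ) := by
      have h1 : AlgebraicIndependent C (fun _ : Unit => σ) :=
        (algebraicIndependent_unique_type_iff).2 hσC
      rw [h1.isTranscendenceBasis_iff_isAlgebraic]
      apply alg_adjoin
      have h2 : Set.range (fun _ : Unit => σ) = {σ} := by simp
      rw [h2, htopC]
      infer_instance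
    have htr1 : Algebra.trdeg C K = 1 := by
      rw [← hb.cardinalMk_eq_trdeg]
      simp
    have h1 : AlgebraicIndependent C (fun _ : Unit => z c1) :=
      (algebraicIndependent_unique_type_iff).2 hz1
    have h2 : IsTranscendenceBasis C (fun _ : Unit => z c1) := by
      refine h1.isTranscendenceBasis_of_trdeg_le ?_ ?_
      · rw [htr1]
        exact Cardinal.one_lt_aleph0
      · rw [htr1]
        simp
    have h3 : Algebra.IsAlgebraic (IntermediateField.adjoin C (Set.range fun _ : Unit => z c1)) K :=
      by
      have h4 := h2.isAlgebraic_field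
      exact h4
    have h5 := h3.isAlgebraic σ
    have hle : ∀ x ∈ IntermediateField.adjoin C (Set.range fun _ : Unit => z c1),
        x ∈ consts δ := by
      intro x hx
      induction hx using IntermediateField.adjoin_induction with
      | mem x hx =>
        obtain ⟨_, rfl⟩ := hx
        exact h0
      | algebraMap c => exact hδC c c.2
      | add x y _ _ hx hy => exact add_mem hx hy
      | inv x _ hx => exact inv_mem hx
      | mul x y _ _ hx hy => exact mul_mem hx hy
    obtain ⟨p, hp0, hp⟩ := h5
    apply hσt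
    let g : IntermediateField.adjoin C (Set.range fun _ : Unit => z c1) →+* consts δ :=
      { toFun := fun x => ⟨x, hle x x.2⟩
        map_one' := rfl
        map_zero' := rfl
        map_mul' := fun _ _ => rfl
        map_add' := fun _ _ => rfl }
    refine ⟨p.map g, Polynomial.map_ne_zero hp0, ?_⟩
    rw [← hp, Polynomial.aeval_def, Polynomial.aeval_def, Polynomial.eval₂_map]
    rfl
  -- a transcendence basis
  obtain ⟨B, hB⟩ := exists_isTranscendenceBasis k (consts δ)
  have hσb : IsTranscendenceBasis (consts δ) (fun _ : Unit => σ) := by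
    have h1 : AlgebraicIndependent (consts δ) (fun _ : Unit => σ) :=
      (algebraicIndependent_unique_type_iff).2 hσt
    rw [h1.isTranscendenceBasis_iff_isAlgebraic]
    apply alg_adjoin
    have h2 : Set.range (fun _ : Unit => σ) = {σ} := by simp
    rw [h2, htop]
    infer_instance
  have hBσ := hB.sumElim_comp hσb
  have hcard := hBσ.cardinalMk_eq_trdeg
  rw [htr] at hcard
  have hfin : Finite (Unit ⊕ B) := by
    rw [← Cardinal.lt_aleph0_iff_finite, hcard]
    exact Cardinal.natCast_lt_aleph0
  have hfinB : Finite B := Finite.of_injective (Sum.inr : B → Unit ⊕ B) Sum.inr_injective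
  let hft : Fintype B := Fintype.ofFinite _
  set x : Unit ⊕ B → K := _ with hx
  have hxb : IsTranscendenceBasis k x := hBσ
  have hxl : x (Sum.inl ()) = σ := rfl
  have hxr : ∀ b : B, x (Sum.inr b) = ((b : consts δ) : K) := fun b => rfl
  have hDer : ∀ b : B, ∃ D : Derivation k K K, D σ = 0 ∧
      ∀ b' : B, D ((b' : consts δ) : K) = if b' = b then 1 else 0 := by
    intro b
    obtain ⟨D, hD⟩ := exists_der x hxb (Sum.elim (fun _ => 0) fun b' => if b' = b then 1 else 0)
    exact ⟨D, hD (Sum.inl ()), fun b' => hD (Sum.inr b')⟩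
  choose Δ hΔσ hΔs using hDer
  have hδs : ∀ b : B, δ ((b : consts δ) : K) = 0 := fun b => (b : consts δ).2
  have hcomm : ∀ b y, Δ b (δ y) = δ (Δ b y) := by
    intro b y
    have h1 : ⁅Δ b, δ⁆ = 0 := by
      apply der_ext x hxb
      rintro (_ | b')
      · rw [Derivation.commutator_apply, Derivation.zero_apply, hxl, hσ, hΔσ, map_zero, sub_zero]
      · rw [Derivation.commutator_apply, Derivation.zero_apply, hxr, hδs, hΔs, map_zero, zero_sub,
          neg_eq_zero]
        split_ifs
        · exact δ.map_one_eq_zero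
        · exact map_zero _
    have h2 := congrArg (fun D : Derivation k K K => D y) h1
    simp only [Derivation.commutator_apply, Derivation.zero_apply] at h2
    exact sub_eq_zero.1 h2
  -- the frame and the expansion
  let Fr : Unit ⊕ B → Derivation k K K := Sum.elim (fun _ => δ) Δ
  let cf : Derivation k K K → Unit ⊕ B → K := fun X o =>
    Sum.elim (fun _ : Unit => X σ / σ) (fun b : B => X ((b : consts δ) : K)) o
  have hexp : ∀ (X : Derivation k K K) (y : K), X y = ∑ o, cf X o * Fr o y := by
    intro X y
    have h1 : X = ∑ o, cf X o • Fr o := by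
      apply der_ext x hxb
      intro o'
      rw [Pool.Agent.W357.PG.sum_apply']
      simp only [Derivation.coe_smul, Pi.smul_apply, smul_eq_mul, Fintype.sum_sum_type,
        Finset.univ_unique, Finset.sum_singleton]
      rcases o' with _ | b'
      · rw [hxl]
        simp only [cf, Fr, Sum.elim_inl, Sum.elim_inr, hσ, hΔσ, mul_zero, Finset.sum_const_zero,
          add_zero]
        rw [div_mul_cancel₀ _ hσ0]
      · rw [hxr]
        simp only [cf, Fr, Sum.elim_inl, Sum.elim_inr, hδs, hΔs, mul_zero, zero_add, mul_ite,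
          mul_one, Finset.sum_ite_eq, Finset.mem_univ, if_true]
    conv_lhs => rw [h1]
    rw [Pool.Agent.W357.PG.sum_apply']
    rfl
  -- the choice of the vector fields
  obtain ⟨E, hE⟩ := exists_dual_of_indep (k := k) hz
  obtain ⟨φ, hφ1, hφ⟩ : ∃ φ : Fin d → Unit ⊕ B, φ c1 = Sum.inl () ∧
      (Matrix.of fun j c => Fr (φ j) (z c)).det ≠ 0 := by
    let X : Fin d → Derivation k K K := Function.update E c1 δ
    have h1 : (Matrix.of fun j c => X j (z c)).det = δ (z c1) := by
      have h2 : (Matrix.of fun j c => X j (z c)) =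
          Matrix.updateRow (1 : Matrix (Fin d) (Fin d) K) c1 fun c => δ (z c) := by
        ext j c
        rw [Matrix.of_apply, Matrix.updateRow_apply]
        by_cases hj : j = c1
        · subst hj
          rw [if_pos rfl]
          simp only [X, Function.update_self]
        · rw [if_neg hj]
          simp only [X]
          rw [Function.update_of_ne hj, hE, Matrix.one_apply]
          by_cases hjc : j = c
          · subst hjc; simp
          · rw [if_neg hjc, if_neg (Ne.symm hjc)]
      rw [h2, ← Matrix.cramer_transpose_apply, Matrix.transpose_one, Matrix.cramer_one]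
      rfl
    have h3 : (Matrix.of fun j c => X j (z c)).det = ∑ φ : Fin d → Unit ⊕ B,
        (∏ j, cf (X j) (φ j)) * (Matrix.of fun j c => Fr (φ j) (z c)).det := by
      have e1 : (Matrix.of fun j c => X j (z c)).det =
          (Matrix.detRowAlternating (n := Fin d) (R := K)).toMultilinearMap
            (fun j => ∑ o, cf (X j) o • fun c => Fr o (z c)) := by
        change Matrix.det _ = Matrix.det _
        congr 1
        ext j c
        rw [Matrix.of_apply, hexp (X j) (z c), Finset.sum_apply]
        rfl
      rw [e1, MultilinearMap.map_sum]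
      refine Finset.sum_congr rfl fun φ _ => ?_
      rw [MultilinearMap.map_smul_univ, smul_eq_mul]
      rfl
    rw [h1] at h3
    obtain ⟨φ, -, hφ⟩ := Finset.exists_ne_zero_of_sum_ne_zero (h3 ▸ hδz)
    refine ⟨φ, ?_, right_ne_zero_of_mul hφ⟩
    have h4 : cf (X c1) (φ c1) ≠ 0 := Finset.prod_ne_zero_iff.1 (left_ne_zero_of_mul hφ) c1
      (Finset.mem_univ _)
    have h5 : X c1 = δ := Function.update_self ..
    rcases hc : φ c1 with u | b
    · rfl
    · rw [hc, h5] at h4
      exact absurd (hδs b) h4
  have hlast : ∀ f : K, f ≠ 0 → δ f = 0 → ∀ u : K, u * σ = σ - 1 → u ≠ 0 → ∀ q : ℕ, 1 ≤ q →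
      δ (u ^ q * f) ≠ 0 := by
    intro f hf0 hf u hu hu0 q hq h1
    rw [Derivation.leibniz, hf, smul_zero, zero_add, Derivation.leibniz_pow, smul_eq_mul,
      nsmul_eq_mul, smul_eq_mul] at h1
    have hδu : δ u = 0 := by
      have h2 : (q : K) ≠ 0 := by
        have hK0 : CharZero K := charZero_of_injective_algebraMap (algebraMap k K).injective
        exact Nat.cast_ne_zero.2 (by omega)
      rcases mul_eq_zero.1 h1 with h3 | h3
      · exact absurd h3 hf0
      · rcases mul_eq_zero.1 h3 with h4 | h4
        · exact absurd h4 h2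
        · rcases mul_eq_zero.1 h4 with h5 | h5
          · exact absurd h5 (pow_ne_zero _ hu0)
          · exact h5
    have h2 := congrArg δ hu
    rw [Derivation.leibniz, hδu, smul_zero, add_zero, hσ, smul_eq_mul, hu, map_sub, hσ,
      δ.map_one_eq_zero, sub_zero] at h2
    have h3 : (1 : K) = 0 := by linear_combination -h2
    exact one_ne_zero h3
  -- the first parameter
  let D : Fin d → Derivation k K K := fun j => Fr (φ j)
  have hσ1 : σ - 1 ≠ 0 := by
    intro h1
    have h2 := congrArg δ h1
    rw [map_sub, hσ, δ.map_one_eq_zero, sub_zero, map_zero] at h2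
    exact hσ0 h2
  let dt : K := (Matrix.of fun j c => D j (z c)).det
  have h0 : δ (a * dt ^ m) = 0 := by
    have e1 : a * dt ^ m = a * ∏ _l : Fin m, (Matrix.of fun j c => D j (z c)).det := by
      rw [Finset.prod_const, Finset.card_univ, Fintype.card_fin]
    rw [e1]
    refine spec_const htr (Bd := fun _ => False) δ hσ0 hσ htop (fun _ _ _ h => h) D
      (fun i y => ?_) (fun P hP hD => h P hP (fun _ j => D j) fun _ j => derReg_log (hD j))
      (fun P hP _ hD => h P hP (fun _ j => D j) fun _ j => hD j)
    change Fr (φ i) (δ y) = δ (Fr (φ i) y)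
    rcases φ i with _ | b
    · rfl
    · exact hcomm b y
  -- the second parameter
  let u : K := (σ - 1) / σ
  have hu : u * σ = σ - 1 := div_mul_cancel₀ _ hσ0
  have hu0 : u ≠ 0 := div_ne_zero hσ1 hσ0
  have hΔu : ∀ b, Δ b u = 0 := by
    intro b
    have h1 := congrArg (Δ b) hu
    rw [Derivation.leibniz, hΔσ, smul_zero, zero_add, map_sub, hΔσ, (Δ b).map_one_eq_zero,
      sub_zero, smul_eq_mul] at h1
    exact (mul_eq_zero.1 h1).resolve_left hσ0
  have hcons : consts (u • δ) = consts δ := by
    ext y
    change u * δ y = 0 ↔ δ y = 0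
    rw [mul_eq_zero, or_iff_right hu0]
  have htop1 : (consts (u • δ))⟮σ - 1⟯ = ⊤ := by
    rw [hcons, eq_top_iff, ← htop, IntermediateField.adjoin_simple_le_iff]
    have h1 := add_mem (IntermediateField.mem_adjoin_simple_self (consts δ) (σ - 1))
      (one_mem (consts δ)⟮σ - 1⟯)
    rwa [sub_add_cancel] at h1
  let Fr1 : Unit ⊕ B → Derivation k K K := Sum.elim (fun _ => u • δ) Δ
  let W : Unit ⊕ B → K := Sum.elim (fun _ => u) (fun _ => 1)
  have hFr1 : ∀ o y, Fr1 o y = W o * Fr o y := by
    rintro (_ | b) y
    · rfl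
    · exact (one_mul _).symm
  let D1 : Fin d → Derivation k K K := fun j => Fr1 (φ j)
  have hdet : (Matrix.of fun j c => D1 j (z c)).det = (∏ j, W (φ j)) * dt := by
    rw [← Matrix.det_mul_column]
    congr 1
    ext j c
    exact hFr1 _ _
  have h1 : (u • δ) (a * ((∏ j, W (φ j)) * dt) ^ m) = 0 := by
    have e1 : a * ((∏ j, W (φ j)) * dt) ^ m =
        a * ∏ _l : Fin m, (Matrix.of fun j c => D1 j (z c)).det := by
      rw [Finset.prod_const, Finset.card_univ, Fintype.card_fin, hdet]
    rw [e1]
    refine spec_const htr (Bd := fun _ => False) (u • δ) hσ1 ?_ htop1 (fun _ _ _ h => h) D1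
      (fun i y => ?_) (fun P hP hD => h P hP (fun _ j => D1 j) fun _ j => derReg_log (hD j))
      (fun P hP _ hD => h P hP (fun _ j => D1 j) fun _ j => hD j)
    · change u * δ (σ - 1) = σ - 1
      rw [map_sub, hσ, δ.map_one_eq_zero, sub_zero, hu]
    · change Fr1 (φ i) ((u • δ) y) = (u • δ) (Fr1 (φ i) y)
      rcases φ i with _ | b
      · rfl
      · change Δ b (u * δ y) = u * δ (Δ b y)
        rw [Derivation.leibniz, hΔu, smul_zero, add_zero, smul_eq_mul, hcomm]
  have h2 : δ (a * ((∏ j, W (φ j)) * dt) ^ m) = 0 := by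
    have h3 : u * δ (a * ((∏ j, W (φ j)) * dt) ^ m) = 0 := h1
    exact (mul_eq_zero.1 h3).resolve_left hu0
  obtain ⟨t, ht, hW⟩ : ∃ t : ℕ, 1 ≤ t ∧ ∏ j, W (φ j) = u ^ t := by
    refine ⟨(Finset.univ.filter fun j => φ j = Sum.inl ()).card, ?_, ?_⟩
    · exact Finset.card_pos.2 ⟨c1, Finset.mem_filter.2 ⟨Finset.mem_univ _, hφ1⟩⟩
    · have h3 : ∀ j, W (φ j) = if φ j = Sum.inl () then u else 1 := by
        intro j
        rcases φ j with _ | b
        · rw [if_pos rfl]
          rfl
        · rw [if_neg (by simp)]
          rfl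
      simp only [h3]
      rw [Finset.prod_ite, Finset.prod_const, Finset.prod_const_one, mul_one]
  have h3 : a * ((∏ j, W (φ j)) * dt) ^ m = u ^ (t * m) * (a * dt ^ m) := by
    rw [hW, mul_pow, ← pow_mul]
    ring
  rw [h3] at h2
  exact hlast _ (mul_ne_zero ha (pow_ne_zero _ hφ)) h0 u hu hu0 (t * m)
    (Nat.mul_pos ht hm) h2

end Pool.Agent.Y221.VC
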