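import Pool.Agent.Y221.VC.Stm

/-!
The geometric generic fibre of a fibration whose total space is dominated by a ruled variety such
that the rational curves lie in the fibres.
-/

set_option autoImplicit false
set_option maxHeartbeats 400000
set_option linter.overlappingInstances false
set_option linter.unusedSectionVars false

open FF IntermediateField

namespace Pool.Agent.Y221.VC

open Pool.Agent.W602.GT Pool.Agent.TH466.QG

section
variable {C K Ω : Type} [Field C] [Field K] [Field Ω] [Algebra C K] [Algebra K Ω] [Algebra C Ω]
  [IsScalarTower C K Ω]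

/-- Being algebraic is transitive. -/
theorem alg_of_alg {Λ : Type} [Field Λ] [Algebra Λ Ω] {K' : IntermediateField Λ Ω}
    (C' : IntermediateField Λ K') (h : ∀ z ∈ C', IsAlgebraic C ((z : K') : Ω)) {σ : K'}
    (hσ : IsAlgebraic C' σ) : IsAlgebraic C (σ : Ω) := by
  let B : IntermediateField C Ω := algebraicClosure C Ω
  have hB : Algebra.IsAlgebraic C B := algebraicClosure.isAlgebraic C Ω
  let f : C' →+* B :=
    { toFun := fun z => ⟨((z : K') : Ω), mem_algebraicClosure_iff.2 (h z z.2)⟩
      map_one' := rfl
      map_zero' := rfl
      map_mul' := fun _ _ => rfl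
      map_add' := fun _ _ => rfl }
  obtain ⟨p, hp0, hp⟩ := hσ
  have h1 : IsAlgebraic B (σ : Ω) := by
    refine ⟨p.map f, ?_, ?_⟩
    · exact Polynomial.map_ne_zero hp0
    · have h2 := congrArg (algebraMap K' Ω) hp
      rw [map_zero] at h2
      rw [← h2, Polynomial.aeval_def, Polynomial.aeval_def, Polynomial.eval₂_map,
        Polynomial.hom_eval₂]
      rfl
  exact h1.restrictScalars C

end

variable {k : Type} [Field k] [CharZero k] [IsAlgClosed k]

/-- Over the algebraic closure of the base. -/
theorem fib_neg {K L M Λ E : Type} [Field K] [Field L] [Field M] [Field Λ] [Field E] [Algebra k K]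
    [Algebra k L] [Algebra k M] [Algebra L K] [Algebra M L] [IsScalarTower k L K]
    [IsScalarTower k M L] [FiniteDimensional L K] [hKe : Algebra.EssFiniteType k K]
    [Algebra M Λ] [hΛ : Algebra.IsAlgebraic M Λ] [IsAlgClosed Λ] [Algebra Λ E] [Algebra L E]
    [Algebra M E] [IsScalarTower M Λ E] [IsScalarTower M L E]
    (hE : IntermediateField.adjoin Λ (Set.range (algebraMap L E)) = ⊤) {f : ℕ}
    (hf : Algebra.trdeg Λ E = f) (C : IntermediateField k K) (σ : K) (hσ : Transcendental C σ)
    (htop : C⟮σ⟯ = ⊤) (hM : ∀ z : M, IsAlgebraic C (algebraMap L K (algebraMap M L z))) :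
    ¬ KodGe Λ E f (fun _ => False) 0 := by
  have hM0 : CharZero M := charZero_of_injective_algebraMap (algebraMap k M).injective
  have hΛ0 : CharZero Λ := charZero_of_injective_algebraMap (algebraMap M Λ).injective
  -- `E` is algebraic over `L`
  have hΛL : ∀ x : Λ, IsAlgebraic L (algebraMap Λ E x) := by
    intro x
    obtain ⟨p, hp0, hp⟩ := hΛ.isAlgebraic x
    refine ⟨p.map (algebraMap M L), Polynomial.map_ne_zero hp0, ?_⟩
    have h2 := congrArg (algebraMap Λ E) hp
    rw [map_zero] at h2
    rw [← h2, Polynomial.aeval_def, Polynomial.aeval_def, Polynomial.eval₂_map,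
      Polynomial.hom_eval₂, ← IsScalarTower.algebraMap_eq M L E, ← IsScalarTower.algebraMap_eq M Λ E]
  have hEL : Algebra.IsAlgebraic L E := by
    refine ⟨fun z => ?_⟩
    have hz : z ∈ IntermediateField.adjoin Λ (Set.range (algebraMap L E)) := by
      rw [hE]
      exact IntermediateField.mem_top
    induction hz using IntermediateField.adjoin_induction with
    | mem z hz =>
      obtain ⟨x, rfl⟩ := hz
      exact isAlgebraic_algebraMap x
    | algebraMap c => exact hΛL c
    | add x y _ _ hx hy => exact hx.add hy
    | inv x _ hx => exact hx.inv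
    | mul x y _ _ hx hy => exact hx.mul hy
  let Ω := AlgebraicClosure K
  let φ : E →ₐ[L] Ω := IsAlgClosed.lift
  let algΛ : Algebra Λ Ω := (φ.toRingHom.comp (algebraMap Λ E)).toAlgebra
  let algE : Algebra E Ω := φ.toRingHom.toAlgebra
  have hΛΩ : ∀ x : Λ, algebraMap Λ Ω x = φ (algebraMap Λ E x) := fun x => rfl
  have hMΩ : ∀ z : M, algebraMap Λ Ω (algebraMap M Λ z) =
      algebraMap K Ω (algebraMap L K (algebraMap M L z)) := by
    intro z
    rw [hΛΩ, ← IsScalarTower.algebraMap_apply M Λ E, IsScalarTower.algebraMap_apply M L E,
      AlgHom.commutes, ← IsScalarTower.algebraMap_apply L K Ω]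
  let K' : IntermediateField Λ Ω := IntermediateField.adjoin Λ (Set.range (algebraMap K Ω))
  have hKK' : ∀ x : K, algebraMap K Ω x ∈ K' := fun x =>
    IntermediateField.subset_adjoin Λ _ ⟨x, rfl⟩
  let ι : K →+* K' := (algebraMap K Ω).codRestrict K'.toSubalgebra hKK'
  have hι : ∀ x, ((ι x : K') : Ω) = algebraMap K Ω x := fun x => rfl
  have hφK' : ∀ z : E, φ z ∈ K' := by
    intro z
    have hz : z ∈ IntermediateField.adjoin Λ (Set.range (algebraMap L E)) := by
      rw [hE]
      exact IntermediateField.mem_top
    induction hz using IntermediateField.adjoin_induction with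
    | mem z hz =>
      obtain ⟨x, rfl⟩ := hz
      rw [AlgHom.commutes, IsScalarTower.algebraMap_apply L K Ω]
      exact hKK' _
    | algebraMap c => exact K'.algebraMap_mem c
    | add x y _ _ hx hy => rw [map_add]; exact add_mem hx hy
    | inv x _ hx => rw [map_inv₀]; exact inv_mem hx
    | mul x y _ _ hx hy => rw [map_mul]; exact mul_mem hx hy
  let ψ : E →+* K' := φ.toRingHom.codRestrict K'.toSubalgebra hφK'
  let algEK : Algebra E K' := ψ.toAlgebra
  have htower : IsScalarTower Λ E K' := IsScalarTower.of_algebraMap_eq fun x => Subtype.ext rfl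
  -- finite generation
  have hess : Algebra.EssFiniteType Λ K' := by
    rw [← IntermediateField.fg_top_iff] at hKe ⊢
    obtain ⟨T, hT⟩ := hKe
    classical
    refine ⟨T.image ι, ?_⟩
    rw [eq_top_iff]
    have h1 : ∀ x : K, ι x ∈ IntermediateField.adjoin Λ (↑(T.image ι) : Set K') := by
      intro x
      have hx : x ∈ IntermediateField.adjoin k (T : Set K) := by
        rw [hT]
        exact IntermediateField.mem_top
      induction hx using IntermediateField.adjoin_induction with
      | mem z hz =>
        apply IntermediateField.subset_adjoin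
        rw [Finset.coe_image]
        exact ⟨z, hz, rfl⟩
      | algebraMap c =>
        have h2 : ι (algebraMap k K c) = algebraMap Λ K' (algebraMap M Λ (algebraMap k M c)) := by
          apply Subtype.ext
          rw [hι]
          change _ = algebraMap Λ Ω (algebraMap M Λ (algebraMap k M c))
          rw [hMΩ, ← IsScalarTower.algebraMap_apply k M L, ← IsScalarTower.algebraMap_apply k L K]
        rw [h2]
        exact IntermediateField.algebraMap_mem _ _
      | add x y _ _ hx hy => rw [map_add]; exact add_mem hx hy
      | inv x _ hx => rw [map_inv₀]; exact inv_mem hx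
      | mul x y _ _ hx hy => rw [map_mul]; exact mul_mem hx hy
    rintro ⟨z, hz⟩ -
    have key : ∀ z ∈ IntermediateField.adjoin Λ (Set.range (algebraMap K Ω)), ∀ hz : z ∈ K',
        (⟨z, hz⟩ : K') ∈ IntermediateField.adjoin Λ (↑(T.image ι) : Set K') := by
      intro z hz
      induction hz using IntermediateField.adjoin_induction with
      | mem z hz =>
        intro h2
        obtain ⟨x, rfl⟩ := hz
        exact h1 x
      | algebraMap c =>
        intro h2
        exact IntermediateField.algebraMap_mem _ c
      | add x y hx0 hy0 hx hy =>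
        intro h2
        exact add_mem (hx hx0) (hy hy0)
      | inv x hx0 hx =>
        intro h2
        exact inv_mem (hx hx0)
      | mul x y hx0 hy0 hx hy =>
        intro h2
        exact mul_mem (hx hx0) (hy hy0)
    exact key z hz hz
  -- `K'` is algebraic over `E`
  have halg : Algebra.IsAlgebraic E K' := by
    refine ⟨fun z => ?_⟩
    have h1 : IsAlgebraic L (z : Ω) := by
      have hKL : Algebra.IsAlgebraic L K := inferInstance
      have hΩ : Algebra.IsAlgebraic L Ω := Algebra.IsAlgebraic.trans L K Ω
      exact hΩ.isAlgebraic _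
    obtain ⟨p, hp0, hp⟩ := h1
    refine ⟨p.map (algebraMap L E), Polynomial.map_ne_zero hp0, ?_⟩
    apply Subtype.ext
    have h2 : ((Polynomial.aeval z (p.map (algebraMap L E)) : K') : Ω) =
        Polynomial.aeval (z : Ω) p := by
      change algebraMap K' Ω _ = _
      rw [Polynomial.aeval_def, Polynomial.aeval_def, Polynomial.eval₂_map, Polynomial.hom_eval₂]
      congr 1
      ext x
      change φ (algebraMap L E x) = _
      rw [AlgHom.commutes]
    rw [h2, hp]
    rfl
  have hessE : Algebra.EssFiniteType E K' := Algebra.EssFiniteType.of_comp Λ E K'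
  have hfin : FiniteDimensional E K' := Algebra.finite_of_essFiniteType_of_isAlgebraic
  have hdim : Algebra.trdeg Λ K' = f := by
    rw [← hf, ← trdeg_add_eq Λ E (A := K')]
    have h1 : Algebra.trdeg E K' = 0 := by
      rw [trdeg_eq_zero_iff]
      infer_instance
    rw [h1, add_zero]
  -- `K'` is ruled over `Λ`
  have hR : Ruled Λ K' := by
    let C' : IntermediateField Λ K' := IntermediateField.adjoin Λ {z | ∃ c ∈ C, z = ι c}
    have hCC' : ∀ c ∈ C, ι c ∈ C' := fun c hc => IntermediateField.subset_adjoin Λ _ ⟨c, hc, rfl⟩
    have hC' : ∀ z ∈ C', IsAlgebraic C ((z : K') : Ω) := by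
      intro z hz
      induction hz using IntermediateField.adjoin_induction with
      | mem z hz =>
        obtain ⟨c, hc, rfl⟩ := hz
        rw [hι]
        exact isAlgebraic_algebraMap (A := Ω) (⟨c, hc⟩ : C)
      | algebraMap c =>
        change IsAlgebraic C (algebraMap Λ Ω c)
        obtain ⟨p, hp0, hp⟩ := hΛ.isAlgebraic c
        let B : IntermediateField C Ω := algebraicClosure C Ω
        have hB : Algebra.IsAlgebraic C B := algebraicClosure.isAlgebraic C Ω
        have hMB : ∀ z : M, algebraMap K Ω (algebraMap L K (algebraMap M L z)) ∈ B := fun z => by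
          rw [mem_algebraicClosure_iff]
          exact (hM z).algebraMap
        let g : M →+* B := ((algebraMap K Ω).comp ((algebraMap L K).comp
          (algebraMap M L))).codRestrict B.toSubalgebra hMB
        have h1 : IsAlgebraic B (algebraMap Λ Ω c) := by
          refine ⟨p.map g, Polynomial.map_ne_zero hp0, ?_⟩
          have h2 := congrArg (algebraMap Λ Ω) hp
          rw [map_zero] at h2
          rw [← h2, Polynomial.aeval_def, Polynomial.aeval_def, Polynomial.eval₂_map,
            Polynomial.hom_eval₂]
          congr 1
          ext x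
          exact (hMΩ x).symm
        exact h1.restrictScalars C
      | add x y _ _ hx hy => exact hx.add hy
      | inv x _ hx => exact hx.inv
      | mul x y _ _ hx hy => exact hx.mul hy
    refine ⟨C', ι σ, fun h => ?_, ?_⟩
    · have h1 := alg_of_alg (C := C) (Ω := Ω) C' hC' h
      rw [hι] at h1
      apply hσ
      obtain ⟨p, hp0, hp⟩ := h1
      refine ⟨p, hp0, ?_⟩
      apply (algebraMap K Ω).injective
      rw [map_zero, ← hp, Polynomial.aeval_algebraMap_apply]
    · rw [eq_top_iff]
      have h1 : ∀ x : K, ι x ∈ IntermediateField.adjoin C' {ι σ} := by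
        intro x
        have hx : x ∈ C⟮σ⟯ := by
          rw [htop]
          exact IntermediateField.mem_top
        induction hx using IntermediateField.adjoin_induction with
        | mem z hz =>
          rw [Set.mem_singleton_iff] at hz
          subst hz
          exact IntermediateField.mem_adjoin_simple_self C' _
        | algebraMap c =>
          exact IntermediateField.algebraMap_mem _ (⟨ι c, hCC' c c.2⟩ : C')
        | add x y _ _ hx hy => rw [map_add]; exact add_mem hx hy
        | inv x _ hx => rw [map_inv₀]; exact inv_mem hx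
        | mul x y _ _ hx hy => rw [map_mul]; exact mul_mem hx hy
      rintro ⟨z, hz⟩ -
      have key : ∀ z ∈ IntermediateField.adjoin Λ (Set.range (algebraMap K Ω)), ∀ hz : z ∈ K',
          (⟨z, hz⟩ : K') ∈ IntermediateField.adjoin C' {ι σ} := by
        intro z hz
        induction hz using IntermediateField.adjoin_induction with
        | mem z hz =>
          intro h2
          obtain ⟨x, rfl⟩ := hz
          exact h1 x
        | algebraMap c =>
          intro h2
          exact IntermediateField.algebraMap_mem _
            (⟨algebraMap Λ K' c, C'.algebraMap_mem c⟩ : C')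
        | add x y hx0 hy0 hx hy =>
          intro h2
          exact add_mem (hx hx0) (hy hy0)
        | inv x hx0 hx =>
          intro h2
          exact inv_mem (hx hx0)
        | mul x y hx0 hy0 hx hy =>
          intro h2
          exact mul_mem (hx hx0) (hy hy0)
      exact key z hz hz
  intro hκ
  exact (neg_below (k := Λ) (K := K') (L := E) hdim hR).2.1 (psef_of_kodGe hκ)

end Pool.Agent.Y221.VC
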