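import Pool.Agent.TH466.QT.Tens

/-!
Tensor differentials `a (dz_1 ∧ … ∧ dz_d) ^ m` under finite extensions of function fields.
-/

set_option autoImplicit false
set_option maxHeartbeats 400000
set_option linter.overlappingInstances false
set_option linter.unusedSectionVars false

open FF IntermediateField

namespace Pool.Agent.Y221.VC

open Pool.Agent.W602.GT Pool.Agent.W619.Y Pool.Agent.W73.PG.PULL Pool.Agent.TH466.QT
open Pool.Agent.W619.PQ (IsDivisorial)

/-- The tensor `a (dz_1 ∧ … ∧ dz_d) ^ m` is regular on the smooth projective varieties with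
function field `K`, of dimension `n`. -/
def TensReg (k K : Type) [Field k] [Field K] [Algebra k K] (n m d : ℕ) (a : K) (z : Fin d → K) :
    Prop :=
  ∀ P : Place k K, Divisorial n P → ∀ X : Fin m → Fin d → Derivation k K K,
    (∀ l j, DerReg P (X l j)) →
    P.Reg (a * ∏ l : Fin m, (Matrix.of fun j c => X l j (z c)).det)

variable {k K L : Type} [Field k] [CharZero k] [Field K] [Field L] [Algebra k K] [Algebra k L]
  [Algebra L K] [IsScalarTower k L K] [FiniteDimensional L K]

theorem tens_pull [Algebra.EssFiniteType k L] {n m d : ℕ} (htr : Algebra.trdeg k L = n)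
    {a : L} {z : Fin d → L} (h : TensReg k L n m d a z) :
    TensReg k K n m d (algebraMap L K a) (fun c => algebraMap L K (z c)) := by
  classical
  intro w hw X hX
  obtain ⟨e, v, hwv⟩ := exists_over' (K := L) w
  have hv : IsDivisorial v n := pDIVI k L K n v w e hwv hw
  obtain ⟨y', E', i0, hy', hE', ht, hyr, hpres⟩ :=
    pFRAME k L n htr (fun y hy => fin_over y hy) v hv
  choose Et hEt using fun i => pEXT k L K n htr (E' i)
  have hEt1 : ∀ i f, Et i (algebraMap L K f) = algebraMap L K (E' i f) := fun i => (hEt i).1
  have h1 : algebraMap L K a * ∏ l : Fin m, (Matrix.of fun j c => X l j (algebraMap L K (z c))).det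
      = (tmap (k := k) d m (algebraMap L K a) fun c => algebraMap L K (z c))
        (fun p => ∑ i : Fin n, X p.1 p.2 (algebraMap L K (y' i)) • Et i) := by
    change _ = algebraMap L K a * ∏ l : Fin m, (Matrix.of fun j c =>
      (∑ i : Fin n, X l j (algebraMap L K (y' i)) • Et i) (algebraMap L K (z c))).det
    congr 1
    refine Finset.prod_congr rfl fun l _ => ?_
    congr 1
    ext j c
    rw [Matrix.of_apply, Matrix.of_apply, chain y' hy' E' hE' (X l j) (z c),
      Pool.Agent.W357.PG.sum_apply']
    refine Finset.sum_congr rfl fun i _ => ?_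
    rw [Derivation.coe_smul, Pi.smul_apply, smul_eq_mul, hEt1]
  rw [h1, MultilinearMap.map_sum]
  refine Finset.sum_induction _ (fun x => w.Reg x) (fun x y hx hy => w.reg_add hx hy) w.reg_zero
    fun φ _ => ?_
  rw [MultilinearMap.map_smul_univ, smul_eq_mul]
  refine w.reg_mul ?_ ?_
  · refine Finset.prod_induction _ (fun x => w.Reg x) (fun x y hx hy => w.reg_mul hx hy) w.reg_one
      fun p _ => ?_
    exact hX p.1 p.2 _ (hwv.reg.2 (hyr _))
  · have h2 : (tmap (k := k) d m (algebraMap L K a) fun c => algebraMap L K (z c))
        (fun p => Et (φ p)) = algebraMap L K (a * ∏ l : Fin m,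
          (Matrix.of fun j c => E' (φ (l, j)) (z c)).det) := by
      change algebraMap L K a * ∏ l : Fin m, (Matrix.of fun j c =>
        Et (φ (l, j)) (algebraMap L K (z c))).det = _
      rw [map_mul, map_prod]
      congr 1
      refine Finset.prod_congr rfl fun l _ => ?_
      rw [RingHom.map_det]
      congr 1
      ext j c
      rw [Matrix.of_apply, hEt1]
      rfl
    rw [h2]
    exact hwv.reg.2 (h v hv (fun l j => E' (φ (l, j))) fun l j => hpres _)

end Pool.Agent.Y221.VC
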