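import Pool.Agent.Y221.CF.Ess
import Pool.Agent.Y221.CF.Abu
import Pool.Agent.TH466.QT.Tens

/-!
Subadditivity for fibre spaces with dominated total space: statements of the jobs.
-/

set_option autoImplicit false
set_option maxHeartbeats 400000
set_option linter.overlappingInstances false
set_option linter.unusedSectionVars false

open FF IntermediateField

namespace Pool.Agent.Y221.VC

open Pool.Agent.W602.GT

/-- job RUL: a subfield of nonnegative Kodaira dimension of a field `C(σ)` lies in `C`. -/
def StmRul : Prop := ∀ (k : Type) [Field k] [CharZero k] [IsAlgClosed k] (K : Type) [Field K]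
    [Algebra k K] [Algebra.EssFiniteType k K] (w : ℕ) (_ : Algebra.trdeg k K = w)
    (C : IntermediateField k K) (σ : K) (_ : Transcendental C σ) (_ : C⟮σ⟯ = ⊤)
    (M : IntermediateField k K) (d : ℕ) (_ : Algebra.trdeg k M = d)
    (_ : KodGe k M d (fun _ => False) 0), ∀ z ∈ M, IsAlgebraic C z

end Pool.Agent.Y221.VC
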